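import Mathlib
import Pool.Agent.H732_net4.Final

/-!
# Nets in projective 3-space: every net which is not a cone is one of the arrangements `Q_n`
-/

set_option autoImplicit false

open MvPolynomial
open Pool.Agent.H732_net4

namespace Pool.Agent.Results.MP_6a43c3_ag.NetsP3

/-- Let the zero sets of `F 0, ..., F (k - 1)` be the blocks of a `(k, d)`-net in `ℙ³` which is not
a cone. Then `k = 3`, and for some `n ≥ 2` one has `d = 2 n` and the net is projectively equivalent
to `Q_n`. -/
theorem result (k d : ℕ) (F : Fin k → MvPolynomial (Fin 4) ℂ) (hF : IsNetP3 k d F)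
    (hc : ¬ IsCone F) : k = 3 ∧ ∃ n : ℕ, 2 ≤ n ∧ d = 2 * n ∧ ProjEquiv F (Q n) :=
  hF.classification hc

end Pool.Agent.Results.MP_6a43c3_ag.NetsP3
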